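import Pool.Agent.H987.Z.StD

/-! Task Z-D3 (helper582): from the tree to the next stage. -/

set_option autoImplicit false
set_option linter.unusedSectionVars false

open scoped BigOperators InnerProductSpace Topology
open Filter MeasureTheory

namespace Pool.Agent.H582.Z987

open Pool.Agent.H987.Z
open Pool.Agent.Y662.TR (LL Cf Mw dv hu hu_nonneg)
open Pool.Agent.TH369.AN (Rz)

/-! ### the product measure and injections -/

theorem map_inj {A B : Type} (σ : A → B) (hσ : Function.Injective σ) (ν : Measure ℝ)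
    [IsProbabilityMeasure ν] :
    (Measure.infinitePi fun _ : B => ν).map (fun V : B → ℝ => fun a => V (σ a)) =
      Measure.infinitePi fun _ : A => ν := by
  classical
  have hm : Measurable fun V : B → ℝ => fun a => V (σ a) :=
    measurable_pi_lambda _ fun a => measurable_pi_apply _
  refine Measure.eq_infinitePi _ fun s t ht => ?_
  rw [Measure.map_apply hm (MeasurableSet.pi s.countable_toSet fun i _ => ht i)]
  obtain ⟨t', ht'⟩ : ∃ t' : B → Set ℝ, t' = fun v => if h : ∃ a, σ a = v then t h.choose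
      else Set.univ := ⟨_, rfl⟩
  have e1 : ∀ a, t' (σ a) = t a := by
    intro a
    have h : ∃ a', σ a' = σ a := ⟨a, rfl⟩
    rw [ht']
    simp only
    rw [dif_pos h, hσ h.choose_spec]
  have e2 : (fun V : B → ℝ => fun a => V (σ a)) ⁻¹' (Set.pi s t) =
      Set.pi ((s.image σ : Finset B) : Set B) t' := by
    ext V
    simp only [Set.mem_preimage, Set.mem_pi, Finset.coe_image, Set.mem_image,
      Finset.mem_coe, forall_exists_index, and_imp, forall_apply_eq_imp_iff₂]
    exact forall_congr' fun a => by rw [e1]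
  rw [e2, Measure.infinitePi_pi _ (fun v _ => ?_), Finset.prod_image (fun a _ b _ h => hσ h)]
  · exact Finset.prod_congr rfl fun a _ => by rw [e1]
  · rw [ht']
    simp only
    split_ifs with h
    · exact ht _
    · exact MeasurableSet.univ

/-! ### the weights of the next stage -/

section wt

variable {G : Type} [Group G] {n : ℕ}

open Classical in
theorem card_sum (s : Fin (n + 1) → G) (g : G) :
    ((Finset.univ.filter fun j => s j = g).card : ℝ) = ∑ j, if g = s j then (1 : ℝ) else 0 := by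
  rw [Finset.card_filter]
  push_cast
  exact Finset.sum_congr rfl fun j _ => by
    by_cases h : s j = g
    · rw [if_pos h, if_pos h.symm]
    · rw [if_neg h, if_neg (fun h' => h h'.symm)]

open Classical in
theorem card_hasSum (s : Fin (n + 1) → G) :
    HasSum (fun g : G => ((Finset.univ.filter fun j => s j = g).card : ℝ)) ((n : ℝ) + 1) := by
  have h : HasSum (fun g : G => ∑ j, if g = s j then (1 : ℝ) else 0) (∑ _j : Fin (n + 1), (1 : ℝ)) :=
    hasSum_sum fun j _ => hasSum_ite_eq (s j) 1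
  simp only [← card_sum] at h
  simpa using h

open Classical in
theorem bp_apply (b : G → ℝ) (a : ℝ) (s : Fin (n + 1) → G) (g : G) :
    bp b a s g = b g + a * ((Finset.univ.filter fun j => s j = g).card : ℝ) := by
  unfold bp
  rfl

open Classical in
theorem bp_sub (b : G → ℝ) (a : ℝ) (s : Fin (n + 1) → G) (g : G) :
    |bp b a s g - b g| = |a| * ((Finset.univ.filter fun j => s j = g).card : ℝ) := by
  rw [bp_apply, add_sub_cancel_left, abs_mul, Nat.abs_cast]

theorem bp_hasSum (b : G → ℝ) (a : ℝ) (s : Fin (n + 1) → G) :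
    HasSum (fun g => |bp b a s g - b g|) (|a| * ((n : ℝ) + 1)) := by
  classical
  simp only [bp_sub]
  exact (card_hasSum s).mul_left _

theorem bp_N1 (b : G → ℝ) (a : ℝ) (s : Fin (n + 1) → G) :
    N1 (fun x => bp b a s x - b x) = |a| * ((n : ℝ) + 1) := (bp_hasSum b a s).tsum_eq

theorem bp_Sy (b : G → ℝ) (hb : Sy b) (a : ℝ) (s : Fin (n + 1) → G) (hs : ∀ j, s j * s j = 1) :
    Sy (bp b a s) := by
  classical
  refine ⟨?_, fun g => ?_⟩
  · have h1 := (bp_hasSum b a s).summable.add hb.sm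
    refine Summable.of_nonneg_of_le (fun _ => abs_nonneg _) (fun g => ?_) h1
    have := abs_add_le (bp b a s g - b g) (b g)
    simpa using this
  · have hf : (Finset.univ.filter fun j => s j = g⁻¹) = (Finset.univ.filter fun j => s j = g) := by
      ext j
      have h : (s j)⁻¹ = s j := inv_eq_of_mul_eq_one_left (hs j)
      simp only [Finset.mem_filter, Finset.mem_univ, true_and]
      constructor
      · intro h1
        rw [← h, h1, inv_inv]
      · intro h1
        rw [← h, h1]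
    rw [bp_apply, bp_apply, hb.sy, hf]

theorem bp_N1_le (b : G → ℝ) (hb : Sy b) (a : ℝ) (s : Fin (n + 1) → G) :
    N1 (bp b a s) ≤ N1 b + |a| * ((n : ℝ) + 1) := by
  have h1 := bp_hasSum b a s
  have h2 : HasSum (fun g => |b g|) (N1 b) := hb.sm.hasSum
  have h3 := h2.add h1
  have h4 : Summable fun g => |bp b a s g| := by
    refine Summable.of_nonneg_of_le (fun _ => abs_nonneg _) (fun g => ?_) h3.summable
    have := abs_add_le (b g) (bp b a s g - b g)
    simpa using this
  rw [← h3.tsum_eq]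
  unfold N1
  refine h4.tsum_le_tsum (fun g => ?_) h3.summable
  have := abs_add_le (b g) (bp b a s g - b g)
  simpa using this

end wt

theorem abs_le_of_between {α β x : ℝ} (h1 : α ≤ x) (h2 : x ≤ β) : |x| ≤ |α| + |β| := by
  have a1 := neg_abs_le α
  have a2 := le_abs_self β
  have a3 := abs_nonneg α
  have a4 := abs_nonneg β
  exact abs_le.2 ⟨by linarith, by linarith⟩

theorem rst (h1 : S_hutri) (hc : S_conv) (hg : S_green) (ht : S_tree) (hm : S_mom)
    (hv : S_cover) : Pool.Agent.H987.Z.S_rst := by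
  intro g α β c C hF θ ε h hθ hθ1 hε hε1 hh
  obtain ⟨K, hK0, hK⟩ := h1 (ε / 2) (by linarith) (by linarith)
  obtain ⟨R, hR⟩ : ∃ R : ℝ, R = |α| + |β| + 1 := ⟨_, rfl⟩
  have hR0 : 0 < R := by rw [hR]; positivity
  obtain ⟨κ, hκ⟩ : ∃ κ : ℝ, κ = θ / (h + 1 + R) ^ 2 := ⟨_, rfl⟩
  have hκ0 : 0 < κ := by rw [hκ]; positivity
  obtain ⟨η, hη⟩ : ∃ η : ℝ, η = min 1 (ε / (2 * K)) := ⟨_, rfl⟩
  have hη0 : 0 < η := by rw [hη]; positivity
  have hη1 : η ≤ 1 := by rw [hη]; exact min_le_left _ _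
  have hη2 : K * η ≤ ε / 2 := by
    have h5 : η ≤ ε / (2 * K) := by rw [hη]; exact min_le_right _ _
    calc K * η ≤ K * (ε / (2 * K)) := by gcongr
      _ = ε / 2 := by field_simp
  obtain ⟨δ, hδ⟩ : ∃ δ : ℝ, δ = κ * η := ⟨_, rfl⟩
  have hδ0 : 0 < δ := by rw [hδ]; positivity
  have hq : δ ^ 2 / κ ^ 2 = η ^ 2 := by
    rw [hδ]
    field_simp
  obtain ⟨t, ht'⟩ := hm θ R h δ hθ hR0 hh hδ0
  refine ⟨t, ?_⟩
  intro G _ _ n b a s E hb hE hbE hs hlf hN
  have hSy := bp_Sy b hb a s hs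
  refine ⟨hSy, (bp_N1 b a s).le, ?_⟩
  intro ν _ e he0 he1 hint z hz1 hz2 hz3 hz4
  have hz0 : 0 < z.im := hθ.trans_le hz3
  have hzR : ‖z‖ ≤ R := by
    have h5 := Complex.norm_le_abs_re_add_abs_im z
    have h6 := abs_le_of_between hz1 hz2
    have h7 : |z.im| ≤ 1 := abs_le.2 ⟨by linarith, hz4⟩
    rw [hR]
    linarith
  obtain ⟨σ, hσ, hcov⟩ := hv G n t b a s E hb hE hbE hs hlf
  have hgi : 0 < (g z).im :=
    hF.c0.trans_le (hF.lo z hz1 hz2 hz0 (by linarith))
  -- the operators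
  have hRA : RA (fun s : G => Equiv.mulRight s) := ⟨fun x => by simp, fun s t x => by
    simp [mul_assoc]⟩
  obtain ⟨-, hKn, hKT, -⟩ := hc G G _ hRA (bp b a s) (bp b a s) hSy hSy
  have ha0 : 0 ≤ |a| * ((n : ℝ) + 1) := by positivity
  have hN1 := bp_N1_le b hb a s
  have hKn' : ‖KT (bp b a s)‖ ≤ h - 1 := by
    have : ‖KT (bp b a s)‖ ≤ N1 (bp b a s) := hKn
    linarith
  obtain ⟨hTB, hTBn⟩ := ht G n b hb a (tf : Vt G n → Fin (n + 1) → ℝ)
  have hTBn' : ‖TB b a (tf : Vt G n → Fin (n + 1) → ℝ)‖ ≤ h - 1 := by linarith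
  have hY : Bd (fun V : G → ℝ => GS (bp b a s) V z) (1 / z.im) (z.im / (h + ‖z‖) ^ 2) := by
    have := bd_gr hg (KT (bp b a s)) hKT (h - 1) hKn' z hz0 1
    rw [sub_add_cancel] at this
    exact this
  have hX : Bd (fun V : Vt G n → ℝ => GB b a tf V z) (1 / z.im) (z.im / (h + ‖z‖) ^ 2) := by
    have := bd_gr hg (TB b a tf) hTB (h - 1) hTBn' z hz0 oo
    rw [sub_add_cancel] at this
    exact this
  have hκz : κ ≤ z.im / (h + ‖z‖) ^ 2 := by
    rw [hκ]
    have hz5 : 0 ≤ ‖z‖ := norm_nonneg z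
    gcongr
    linarith
  obtain ⟨m, hmp⟩ : ∃ m : (Vt G n → ℝ) → (G → ℝ), m = fun V x => V (σ x) := ⟨_, rfl⟩
  have hmm : Measurable m := by
    rw [hmp]
    exact measurable_pi_lambda _ fun a => measurable_pi_apply _
  have hclose : ∀ V : Vt G n → ℝ, ‖GS (bp b a s) (m V) z - GB b a tf V z‖ ≤ δ := by
    intro V
    obtain ⟨p0, -⟩ := hg G (KT (bp b a s)) hKT
    obtain ⟨q0, -⟩ := hg (Vt G n) (TB b a tf) hTB
    refine ht' G (Vt G n) (HV (KT (bp b a s)) (m V)) (HV (TB b a tf) V) 1 oo (p0 _).1.sa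
      (q0 _).1.sa ((p0 _).2.trans (by linarith)) ((q0 _).2.trans (by linarith)) ?_ z hz3 hzR
    intro k hk
    rw [hmp]
    exact hcov V k hk
  have hpt : ∀ V : Vt G n → ℝ, hu (GS (bp b a s) (m V) z) (g z) ^ 2 ≤
      (1 + ε) * hu (GB b a tf V z) (g z) ^ 2 + ε := by
    intro V
    have l1 : κ ≤ (GS (bp b a s) (m V) z).im := hκz.trans (hY.κ (m V))
    have l2 : κ ≤ (GB b a tf V z).im := hκz.trans (hX.κ V)
    obtain ⟨u0, u1⟩ := hu_small hκ0 l1 l2 (hclose V)
    rw [hq] at u1
    have h8 := hK (GS (bp b a s) (m V) z) (GB b a tf V z) (g z) (hκ0.trans_le l1)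
      (hκ0.trans_le l2) hgi
    have h9 : 0 ≤ hu (GB b a tf V z) (g z) ^ 2 := sq_nonneg _
    have h10 : K * hu (GS (bp b a s) (m V) z) (GB b a tf V z) ^ 2 ≤ ε / 2 := by
      have h11 : hu (GS (bp b a s) (m V) z) (GB b a tf V z) ^ 2 ≤ η := by
        calc hu (GS (bp b a s) (m V) z) (GB b a tf V z) ^ 2 ≤ (η ^ 2) ^ 2 :=
              pow_le_pow_left₀ u0 u1 2
          _ = η * η ^ 3 := by ring
          _ ≤ η * 1 := by
              gcongr
              exact pow_le_one₀ hη0.le hη1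
          _ = η := mul_one _
      exact (mul_le_mul_of_nonneg_left h11 hK0.le).trans hη2
    have h13 : K * hu (GS (bp b a s) (m V) z) (GB b a tf V z) ^ 2 *
        (1 + hu (GB b a tf V z) (g z) ^ 2) ≤ ε / 2 * (1 + hu (GB b a tf V z) (g z) ^ 2) :=
      mul_le_mul_of_nonneg_right h10 (by linarith)
    linarith
  have hI := hint z hz1 hz2 hz3 hz4
  obtain ⟨P, hP⟩ : ∃ P, P = Measure.infinitePi fun _ : Vt G n => ν := ⟨_, rfl⟩
  have hPp : IsProbabilityMeasure P := by rw [hP]; infer_instance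
  have hmap : P.map m = Measure.infinitePi fun _ : G => ν := by
    rw [hP, hmp]
    exact map_inj σ hσ ν
  rw [← hP] at hI
  rw [← hmap, integral_map hmm.aemeasurable ((hu_meas hY.me (g z)).pow_const 2).aestronglyMeasurable]
  have j1 : Integrable (fun V => hu (GS (bp b a s) (m V) z) (g z) ^ 2) P :=
    (hY.comp hmm).int2 hgi P
  have j2 : Integrable (fun V => (1 + ε) * hu (GB b a tf V z) (g z) ^ 2) P :=
    (hX.int2 hgi P).const_mul (1 + ε)
  have j3 : Integrable (fun _ : Vt G n → ℝ => ε) P := integrable_const _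
  refine (integral_mono j1 (j2.add j3) hpt).trans ?_
  have h20 : ∫ V : Vt G n → ℝ, ((1 + ε) * hu (GB b a tf V z) (g z) ^ 2 + ε) ∂P =
      (1 + ε) * (∫ V, hu (GB b a tf V z) (g z) ^ 2 ∂P) + ε := by
    rw [integral_add j2 j3, integral_const_mul, integral_const]
    simp
  refine le_trans h20.le ?_
  have h21 : (1 + ε) * ∫ V, hu (GB b a tf V z) (g z) ^ 2 ∂P ≤ (1 + ε) * e :=
    mul_le_mul_of_nonneg_left hI (by linarith)
  linarith

end Pool.Agent.H582.Z987
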